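import Pool.Agent.Helper8.DP2.Defs

set_option autoImplicit false

/-!
# DQ-A: elementary algebra in good characteristic
-/

namespace Pool.Agent.Helper8.DP2

/-- the nonvanishing facts contained in `bad ≠ 0` -/
theorem bad_facts {K : Type*} [Field K] {m n : ℤ} (hb : ((bad m n : ℤ) : K) ≠ 0) :
    (2 : K) ≠ 0 ∧ (m : K) ≠ 0 ∧ (n : K) ≠ 0 ∧ (m : K) ^ 2 - (n : K) ^ 2 ≠ 0 ∧
      (m : K) ^ 2 + (n : K) ^ 2 ≠ 0 ∧
      (m : K) ^ 4 + (m : K) ^ 2 * (n : K) ^ 2 + (n : K) ^ 4 ≠ 0 := by
  have h : ((bad m n : ℤ) : K) = 2 * m * n * ((m : K) ^ 2 - (n : K) ^ 2) *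
      ((m : K) ^ 2 + (n : K) ^ 2) * ((m : K) ^ 4 + (m : K) ^ 2 * (n : K) ^ 2 + (n : K) ^ 4) := by
    unfold bad kap
    push_cast
    ring
  rw [h] at hb
  refine ⟨?_, ?_, ?_, ?_, ?_, ?_⟩ <;> intro h0 <;> apply hb <;> rw [h0] <;> ring

/-- two different ones of the four linear forms `m x - n y`, `m x + n y`, `n x - m y`, `n x + m y`
have only the trivial common zero -/
theorem lin_pair {K : Type*} [Field K] {M N : K} (h2 : (2 : K) ≠ 0) (hM : M ≠ 0) (hN : N ≠ 0)
    (hd : M ^ 2 - N ^ 2 ≠ 0) (hs : M ^ 2 + N ^ 2 ≠ 0) {x y : K} :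
    (M * x - N * y = 0 → M * x + N * y = 0 → x = 0 ∧ y = 0) ∧
    (M * x - N * y = 0 → N * x - M * y = 0 → x = 0 ∧ y = 0) ∧
    (M * x - N * y = 0 → N * x + M * y = 0 → x = 0 ∧ y = 0) ∧
    (M * x + N * y = 0 → N * x - M * y = 0 → x = 0 ∧ y = 0) ∧
    (M * x + N * y = 0 → N * x + M * y = 0 → x = 0 ∧ y = 0) ∧
    (N * x - M * y = 0 → N * x + M * y = 0 → x = 0 ∧ y = 0) := by
  refine ⟨?_, ?_, ?_, ?_, ?_, ?_⟩
  · intro a b
    constructor
    · have : (2 * M) * x = 0 := by linear_combination a + b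
      exact (mul_eq_zero.1 this).resolve_left (mul_ne_zero h2 hM)
    · have : (2 * N) * y = 0 := by linear_combination b - a
      exact (mul_eq_zero.1 this).resolve_left (mul_ne_zero h2 hN)
  · intro a b
    constructor
    · have : (M ^ 2 - N ^ 2) * x = 0 := by linear_combination M * a - N * b
      exact (mul_eq_zero.1 this).resolve_left hd
    · have : (M ^ 2 - N ^ 2) * y = 0 := by linear_combination N * a - M * b
      exact (mul_eq_zero.1 this).resolve_left hd
  · intro a b
    constructor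
    · have : (M ^ 2 + N ^ 2) * x = 0 := by linear_combination M * a + N * b
      exact (mul_eq_zero.1 this).resolve_left hs
    · have : (M ^ 2 + N ^ 2) * y = 0 := by linear_combination M * b - N * a
      exact (mul_eq_zero.1 this).resolve_left hs
  · intro a b
    constructor
    · have : (M ^ 2 + N ^ 2) * x = 0 := by linear_combination M * a + N * b
      exact (mul_eq_zero.1 this).resolve_left hs
    · have : (M ^ 2 + N ^ 2) * y = 0 := by linear_combination N * a - M * b
      exact (mul_eq_zero.1 this).resolve_left hs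
  · intro a b
    constructor
    · have : (M ^ 2 - N ^ 2) * x = 0 := by linear_combination M * a - N * b
      exact (mul_eq_zero.1 this).resolve_left hd
    · have : (M ^ 2 - N ^ 2) * y = 0 := by linear_combination M * b - N * a
      exact (mul_eq_zero.1 this).resolve_left hd
  · intro a b
    constructor
    · have : (2 * N) * x = 0 := by linear_combination a + b
      exact (mul_eq_zero.1 this).resolve_left (mul_ne_zero h2 hN)
    · have : (2 * M) * y = 0 := by linear_combination b - a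
      exact (mul_eq_zero.1 this).resolve_left (mul_ne_zero h2 hM)

/-- the two kinds of lines through pairs of coordinates -/
theorem no_common_aux {K : Type*} [Field K] {M N k : K} (h2 : (2 : K) ≠ 0) (hM : M ≠ 0)
    (hN : N ≠ 0) (hd : M ^ 2 - N ^ 2 ≠ 0) (hs : M ^ 2 + N ^ 2 ≠ 0) (hk : k ≠ 0) {x y z c : K}
    (h3 : (M ^ 2 + N ^ 2) ^ 2 * z ^ 2 - c * (x ^ 2 + y ^ 2) = 0) :
    (M * x - N * y = 0 → 4 * k * ((M * x + N * y) * (N * x - M * y) * (N * x + M * y)) = 0 →
      x = 0 ∧ y = 0 ∧ z = 0) ∧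
    (N * x + M * y = 0 → 4 * k * ((M * x - N * y) * (M * x + N * y) * (N * x - M * y)) = 0 →
      x = 0 ∧ y = 0 ∧ z = 0) := by
  have h4 : (4 : K) ≠ 0 := by
    have : (4 : K) = 2 * 2 := by norm_num
    rw [this]
    exact mul_ne_zero h2 h2
  obtain ⟨p1, p2, p3, p4, p5, p6⟩ := lin_pair (x := x) (y := y) h2 hM hN hd hs
  have fin : x = 0 ∧ y = 0 → x = 0 ∧ y = 0 ∧ z = 0 := by
    rintro ⟨rfl, rfl⟩
    refine ⟨rfl, rfl, ?_⟩
    have : (M ^ 2 + N ^ 2) ^ 2 * z ^ 2 = 0 := by linear_combination h3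
    rcases mul_eq_zero.1 this with h | h
    · exact absurd h (pow_ne_zero 2 hs)
    · exact pow_eq_zero_iff (two_ne_zero) |>.1 h
  constructor
  · intro a b
    have b' := (mul_eq_zero.1 b).resolve_left (mul_ne_zero h4 hk)
    rcases mul_eq_zero.1 b' with h | h
    · rcases mul_eq_zero.1 h with h | h
      · exact fin (p1 a h)
      · exact fin (p2 a h)
    · exact fin (p3 a h)
  · intro a b
    have b' := (mul_eq_zero.1 b).resolve_left (mul_ne_zero h4 hk)
    rcases mul_eq_zero.1 b' with h | h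
    · rcases mul_eq_zero.1 h with h | h
      · exact fin (p3 h a)
      · exact fin (p5 h a)
    · exact fin (p6 h a)

/-- the two forms `lin i`, `com i` and `qua i` have no common zero in good characteristic -/
theorem no_common_zero {K : Type*} [Field K] {m n : ℤ} (hb : ((bad m n : ℤ) : K) ≠ 0)
    (x y z : K) (i : Fin 7) (h1 : lin m n x y z i = 0) (h2 : com m n x y z i = 0)
    (h3 : qua m n x y z i = 0) : x = 0 ∧ y = 0 ∧ z = 0 := by
  obtain ⟨g2, gM, gN, gd, gs, gk⟩ := bad_facts hb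
  have gk' : (kap m n : K) ≠ 0 := gk
  fin_cases i
  · simp only [lin, com, qua] at h1 h2 h3
    exact (no_common_aux g2 gM gN gd gs gk' h3).1 h1 h2
  · simp only [lin, com, qua] at h1 h2 h3
    exact (no_common_aux g2 gM gN gd gs gk' h3).2 h1 h2
  · simp only [lin, com, qua] at h1 h2 h3
    have := (no_common_aux g2 gM gN gd gs gk' h3).1 h1 h2
    exact ⟨this.2.2, this.1, this.2.1⟩
  · simp only [lin, com, qua] at h1 h2 h3
    have := (no_common_aux g2 gM gN gd gs gk' h3).2 h1 h2
    exact ⟨this.2.2, this.1, this.2.1⟩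
  · simp only [lin, com, qua] at h1 h2 h3
    have := (no_common_aux g2 gM gN gd gs gk' h3).1 h1 h2
    exact ⟨this.2.1, this.2.2, this.1⟩
  · simp only [lin, com, qua] at h1 h2 h3
    have := (no_common_aux g2 gM gN gd gs gk' h3).2 h1 h2
    exact ⟨this.2.1, this.2.2, this.1⟩
  · have h1' : x + y + z = 0 := h1
    have h2' : -(kap m n * ((-x + y + z) * (x - y + z) * (x + y - z))) = 0 := h2
    have h3' : (m : K) * n * (x ^ 2 + y ^ 2 + z ^ 2) = 0 := h3
    have hq : x ^ 2 + y ^ 2 + z ^ 2 = 0 := (mul_eq_zero.1 h3').resolve_left (mul_ne_zero gM gN)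
    have hp : (-x + y + z) * (x - y + z) * (x + y - z) = 0 :=
      (mul_eq_zero.1 (neg_eq_zero.1 h2')).resolve_left gk'
    have key : ∀ a b c : K, a + b + c = 0 → a ^ 2 + b ^ 2 + c ^ 2 = 0 → -a + b + c = 0 →
        a = 0 ∧ b = 0 ∧ c = 0 := by
      intro a b c e1 e2 e3
      have ha : a = 0 := by
        have : 2 * a = 0 := by linear_combination e1 - e3
        exact (mul_eq_zero.1 this).resolve_left g2
      subst ha
      have hbc : b = -c := by linear_combination e1
      subst hbc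
      have : 2 * c ^ 2 = 0 := by linear_combination e2
      have hc := pow_eq_zero_iff (two_ne_zero) |>.1 ((mul_eq_zero.1 this).resolve_left g2)
      subst hc
      simp
    rcases mul_eq_zero.1 hp with h | h
    · rcases mul_eq_zero.1 h with h | h
      · exact key x y z h1' hq h
      · have := key y z x (by linear_combination h1') (by linear_combination hq)
          (by linear_combination h)
        exact ⟨this.2.2, this.1, this.2.1⟩
    · have := key z x y (by linear_combination h1') (by linear_combination hq)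
        (by linear_combination h)
      exact ⟨this.2.1, this.2.2, this.1⟩

/-- smoothness in good characteristic -/
theorem no_singular {K : Type*} [Field K] {m n : ℤ} (hb : ((bad m n : ℤ) : K) ≠ 0)
    (x y z : K)
    (h1 : 4 * (((m : K) ^ 2 + (n : K) ^ 2) ^ 2 * x ^ 3
      - ((m : K) ^ 4 + (n : K) ^ 4) * x * (y ^ 2 + z ^ 2)) = 0)
    (h2 : 4 * (((m : K) ^ 2 + (n : K) ^ 2) ^ 2 * y ^ 3
      - ((m : K) ^ 4 + (n : K) ^ 4) * y * (z ^ 2 + x ^ 2)) = 0)
    (h3 : 4 * (((m : K) ^ 2 + (n : K) ^ 2) ^ 2 * z ^ 3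
      - ((m : K) ^ 4 + (n : K) ^ 4) * z * (x ^ 2 + y ^ 2)) = 0) :
    x = 0 ∧ y = 0 ∧ z = 0 := by
  obtain ⟨g2, gM, gN, gd, gs, gk⟩ := bad_facts hb
  have g4 : (4 : K) ≠ 0 := by
    have : (4 : K) = 2 * 2 := by norm_num
    rw [this]
    exact mul_ne_zero g2 g2
  generalize (m : K) = M at *
  generalize (n : K) = N at *
  -- `x * (a x^2 - c (y^2 + z^2)) = 0` and so on
  have e1 : x * ((M ^ 2 + N ^ 2) ^ 2 * x ^ 2 - (M ^ 4 + N ^ 4) * (y ^ 2 + z ^ 2)) = 0 := by
    have := (mul_eq_zero.1 h1).resolve_left g4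
    linear_combination this
  have e2 : y * ((M ^ 2 + N ^ 2) ^ 2 * y ^ 2 - (M ^ 4 + N ^ 4) * (z ^ 2 + x ^ 2)) = 0 := by
    have := (mul_eq_zero.1 h2).resolve_left g4
    linear_combination this
  have e3 : z * ((M ^ 2 + N ^ 2) ^ 2 * z ^ 2 - (M ^ 4 + N ^ 4) * (x ^ 2 + y ^ 2)) = 0 := by
    have := (mul_eq_zero.1 h3).resolve_left g4
    linear_combination this
  have hM2 : 2 * M ^ 2 * N ^ 2 ≠ 0 :=
    mul_ne_zero (mul_ne_zero g2 (pow_ne_zero 2 gM)) (pow_ne_zero 2 gN)
  -- one coordinate nonzero, the others zero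
  have one : ∀ a : K, a * ((M ^ 2 + N ^ 2) ^ 2 * a ^ 2 - (M ^ 4 + N ^ 4) * (0 ^ 2 + 0 ^ 2)) = 0 →
      a = 0 := by
    intro a h
    by_contra ha
    have h' := (mul_eq_zero.1 h).resolve_left ha
    have : (M ^ 2 + N ^ 2) ^ 2 * a ^ 2 = 0 := by linear_combination h'
    rcases mul_eq_zero.1 this with h4 | h4
    · exact pow_ne_zero 2 gs h4
    · exact ha (pow_eq_zero_iff (two_ne_zero) |>.1 h4)
  -- two nonzero coordinates
  have two : ∀ a b : K, a ≠ 0 → b ≠ 0 →
      (M ^ 2 + N ^ 2) ^ 2 * a ^ 2 - (M ^ 4 + N ^ 4) * b ^ 2 = 0 →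
      (M ^ 2 + N ^ 2) ^ 2 * b ^ 2 - (M ^ 4 + N ^ 4) * a ^ 2 = 0 → False := by
    intro a b ha _ h h'
    have : (2 * M ^ 2 * N ^ 2) * (2 * (M ^ 4 + M ^ 2 * N ^ 2 + N ^ 4)) * a ^ 2 = 0 := by
      linear_combination (M ^ 2 + N ^ 2) ^ 2 * h + (M ^ 4 + N ^ 4) * h'
    rcases mul_eq_zero.1 this with h4 | h4
    · rcases mul_eq_zero.1 h4 with h5 | h5
      · exact hM2 h5
      · exact mul_ne_zero g2 gk h5
    · exact ha (pow_eq_zero_iff (two_ne_zero) |>.1 h4)
  by_cases hx : x = 0
  · subst hx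
    by_cases hy : y = 0
    · subst hy
      exact ⟨rfl, rfl, one z e3⟩
    · by_cases hz : z = 0
      · subst hz
        exact absurd (one y e2) hy
      · exfalso
        refine two y z hy hz ?_ ?_
        · have := (mul_eq_zero.1 e2).resolve_left hy
          linear_combination this
        · have := (mul_eq_zero.1 e3).resolve_left hz
          linear_combination this
  · by_cases hy : y = 0
    · subst hy
      by_cases hz : z = 0
      · subst hz
        exact absurd (one x e1) hx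
      · exfalso
        refine two x z hx hz ?_ ?_
        · have := (mul_eq_zero.1 e1).resolve_left hx
          linear_combination this
        · have := (mul_eq_zero.1 e3).resolve_left hz
          linear_combination this
    · by_cases hz : z = 0
      · subst hz
        exfalso
        refine two x y hx hy ?_ ?_
        · have := (mul_eq_zero.1 e1).resolve_left hx
          linear_combination this
        · have := (mul_eq_zero.1 e2).resolve_left hy
          linear_combination this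
      · exfalso
        have f1 := (mul_eq_zero.1 e1).resolve_left hx
        have f2 := (mul_eq_zero.1 e2).resolve_left hy
        have f3 := (mul_eq_zero.1 e3).resolve_left hz
        have h2k : 2 * (M ^ 4 + M ^ 2 * N ^ 2 + N ^ 4) ≠ 0 := mul_ne_zero g2 gk
        have xy : x ^ 2 - y ^ 2 = 0 := by
          have : (2 * (M ^ 4 + M ^ 2 * N ^ 2 + N ^ 4)) * (x ^ 2 - y ^ 2) = 0 := by
            linear_combination f1 - f2
          exact (mul_eq_zero.1 this).resolve_left h2k
        have xz : x ^ 2 - z ^ 2 = 0 := by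
          have : (2 * (M ^ 4 + M ^ 2 * N ^ 2 + N ^ 4)) * (x ^ 2 - z ^ 2) = 0 := by
            linear_combination f1 - f3
          exact (mul_eq_zero.1 this).resolve_left h2k
        have : (M ^ 2 - N ^ 2) ^ 2 * x ^ 2 = 0 := by
          linear_combination -f1 + (M ^ 4 + N ^ 4) * xy + (M ^ 4 + N ^ 4) * xz
        rcases mul_eq_zero.1 this with h4 | h4
        · exact pow_ne_zero 2 gd h4
        · exact hx (pow_eq_zero_iff (two_ne_zero) |>.1 h4)

end Pool.Agent.Helper8.DP2
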